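import Pool.Agent.Work.MP_4112db_an.Positive
import Pool.Agent.Work.MP_4112db_an.CounterE
import Pool.Agent.Work.MP_4112db_an.Crit4

/-!
# MP_4112db_an : which moduli of continuity force the Lusin condition (N) for `W^{1,n}` maps

Answer: exactly those `ω` for which the integral over `0 < t < 1/2` of
`(|log ω(t)| / |log t|)^n / t` is infinite.
-/

open MeasureTheory Set Pool.Lusin

namespace Pool.Agent.Results.MP_4112db_an.LusinModulus

/-- A modulus of continuity `ω` has property (P) in dimension `n ≥ 2` if and only if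
`∫_0^{1/2} (|log ω(t)| / |log t|)^n dt/t = ∞`. -/
theorem result (n : ℕ) (hn : 2 ≤ n) (ω : ℝ → ℝ) (hω : IsModulus ω) :
    PropertyP n ω ↔
      ∫⁻ t in Ioo (0 : ℝ) (1 / 2),
        ENNReal.ofReal ((|Real.log (ω t)| / |Real.log t|) ^ n / t) = ⊤ := by
  constructor
  · intro hP
    by_contra hne
    have hlt : critInt n ω < ⊤ := lt_top_iff_ne_top.mpr hne
    have h1 : SumCrit n ω := sumCrit_of_critInt hω hlt
    have h2 : MajCrit n ω := h1.majCrit hω
    exact counter hn hω (h2.seqCrit hn hω) hP
  · intro hI Ω hO f hf hW hm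
    by_contra hN
    have h1 : SumCrit n ω := positive hn hω hO hf hW hm hN
    have h2 : critInt n ω < ⊤ := critInt_of_sumCrit hn hω h1
    exact absurd hI (ne_of_lt h2)

end Pool.Agent.Results.MP_4112db_an.LusinModulus
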